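import Pool.Agent.Q215.BKR

/-!
For every `r ≥ 3` there are sets `A_1, ..., A_r` in a finite product space such that the
binary-associated products of `A_1 A_2 ... A_r` are pairwise distinct.
-/

set_option autoImplicit false

namespace Pool.Agent.Results.MP_890654_pr.AllDistinct

open Pool.Agent.Q215.BKR

section Product

variable {T ι κ S : Type*}

/-- The product of a family of sets, one for every `t : T`. -/
def pr (A : T → Set (ι → S)) : Set (T × ι → S) := {x | ∀ t, (fun i => x (t, i)) ∈ A t}

theorem box_pr [Fintype T] [Fintype ι] (A B : T → Set (ι → S)) :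
    box (pr A) (pr B) = pr (fun t => box (A t) (B t)) := by
  classical
  ext x
  constructor
  · rintro ⟨K, L, hd, hK, hL⟩ t
    have key : ∀ (M : Finset (T × ι)) (C : T → Set (ι → S)), cyl x M ⊆ pr C →
        cyl (fun i => x (t, i)) (Finset.univ.filter (fun i => (t, i) ∈ M)) ⊆ C t := by
      intro M C hM z hz
      have hy : (fun p : T × ι => if p.1 = t then z p.2 else x p) ∈ cyl x M := by
        rintro ⟨s, i⟩ hp
        by_cases hs : s = t
        · subst hs
          simpa using hz i (by simpa using hp)
        · simp [hs]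
      have := hM hy t
      simpa using this
    refine ⟨_, _, ?_, key K A hK, key L B hL⟩
    rw [Finset.disjoint_left]
    intro i hi hi'
    rw [Finset.mem_filter] at hi hi'
    exact Finset.disjoint_left.1 hd hi.2 hi'.2
  · intro hx
    choose K L hd hK hL using hx
    have key : ∀ (M : T → Finset ι) (C : T → Set (ι → S)),
        (∀ t, cyl (fun i => x (t, i)) (M t) ⊆ C t) →
        cyl x (Finset.univ.filter (fun p : T × ι => p.2 ∈ M p.1)) ⊆ pr C := by
      intro M C hM y hy t
      exact hM t (fun i hi => hy (t, i) (by simpa using hi))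
    refine ⟨_, _, ?_, key K A hK, key L B hL⟩
    rw [Finset.disjoint_left]
    rintro ⟨t, i⟩ hi hi'
    rw [Finset.mem_filter] at hi hi'
    exact Finset.disjoint_left.1 (hd t) hi.2 hi'.2

theorem prod_pr [Fintype T] [Fintype ι] (A : T → ℕ → Set (ι → S)) (p : BinaryTree Unit) :
    ∀ k, prod (fun m => pr (fun t => A t m)) p k = pr (fun t => prod (A t) p k) := by
  induction p with
  | nil => intro k; rfl
  | node a l r hl hr =>
    intro k
    show box _ _ = _
    rw [hl, hr, box_pr]
    rfl

/-- Change of the index set. -/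
def re (e : κ ≃ ι) (A : Set (ι → S)) : Set (κ → S) := {x | x ∘ e.symm ∈ A}

theorem box_re (e : κ ≃ ι) (A B : Set (ι → S)) : box (re e A) (re e B) = re e (box A B) := by
  classical
  ext x
  constructor
  · rintro ⟨K, L, hd, hK, hL⟩
    have key : ∀ (M : Finset κ) (C : Set (ι → S)), cyl x M ⊆ re e C →
        cyl (x ∘ e.symm) (M.map e.toEmbedding) ⊆ C := by
      intro M C hM z hz
      have : z ∘ e ∈ cyl x M := by
        intro i hi
        have := hz (e i) (by simpa using hi)
        simpa using this
      have := hM this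
      simpa [re, Function.comp_assoc] using this
    exact ⟨_, _, (Finset.disjoint_map _).2 hd, key K A hK, key L B hL⟩
  · rintro ⟨K, L, hd, hK, hL⟩
    have key : ∀ (M : Finset ι) (C : Set (ι → S)), cyl (x ∘ e.symm) M ⊆ C →
        cyl x (M.map e.symm.toEmbedding) ⊆ re e C := by
      intro M C hM z hz
      refine hM (fun i hi => ?_)
      exact hz (e.symm i) (by simpa using hi)
    exact ⟨_, _, (Finset.disjoint_map _).2 hd, key K A hK, key L B hL⟩

theorem prod_re (e : κ ≃ ι) (A : ℕ → Set (ι → S)) (p : BinaryTree Unit) :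
    ∀ k, prod (fun m => re e (A m)) p k = re e (prod A p k) := by
  induction p with
  | nil => intro k; rfl
  | node a l r hl hr =>
    intro k
    show box _ _ = _
    rw [hl, hr, box_re]
    rfl

end Product

/-- Two different bracketings differ on three of the factors. -/
theorem separate (p : BinaryTree Unit) : ∀ (q : BinaryTree Unit) (k : ℕ),
    p.numLeaves = q.numLeaves → p ≠ q →
    ∃ i j l : ℕ, k ≤ i ∧ i < j ∧ j < l ∧ l < k + p.numLeaves ∧
    ((∀ F : ℕ → Set (Fin 2 → Fin 3),
        (∀ m, k ≤ m → m < k + p.numLeaves → m ≠ i → m ≠ j → m ≠ l → F m = Set.univ) →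
        prod F p k = box (box (F i) (F j)) (F l) ∧ prod F q k = box (F i) (box (F j) (F l))) ∨
     (∀ F : ℕ → Set (Fin 2 → Fin 3),
        (∀ m, k ≤ m → m < k + p.numLeaves → m ≠ i → m ≠ j → m ≠ l → F m = Set.univ) →
        prod F q k = box (box (F i) (F j)) (F l) ∧ prod F p k = box (F i) (box (F j) (F l)))) := by
  induction p with
  | nil =>
    intro q k h1 h2
    cases q with
    | nil => exact absurd rfl h2
    | node a l r =>
      exfalso
      have e1 : (BinaryTree.node a l r).numLeaves = l.numLeaves + r.numLeaves := rfl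
      have e2 : (BinaryTree.nil : BinaryTree Unit).numLeaves = 1 := rfl
      have := leaves_pos l
      have := leaves_pos r
      omega
  | node a p1 p2 ih1 ih2 =>
    intro q k h1 h2
    cases q with
    | nil =>
      exfalso
      have e1 : (BinaryTree.node a p1 p2).numLeaves = p1.numLeaves + p2.numLeaves := rfl
      have e2 : (BinaryTree.nil : BinaryTree Unit).numLeaves = 1 := rfl
      have := leaves_pos p1
      have := leaves_pos p2
      omega
    | node b q1 q2 =>
      have e1 : (BinaryTree.node a p1 p2).numLeaves = p1.numLeaves + p2.numLeaves := rfl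
      have e2 : (BinaryTree.node b q1 q2).numLeaves = q1.numLeaves + q2.numLeaves := rfl
      have f1 : ∀ F : ℕ → Set (Fin 2 → Fin 3), prod F (BinaryTree.node a p1 p2) k =
          box (prod F p1 k) (prod F p2 (k + p1.numLeaves)) := fun F => rfl
      have f2 : ∀ F : ℕ → Set (Fin 2 → Fin 3), prod F (BinaryTree.node b q1 q2) k =
          box (prod F q1 k) (prod F q2 (k + q1.numLeaves)) := fun F => rfl
      rw [e1, e2] at h1
      rw [e1]
      have hp1 := leaves_pos p1
      have hp2 := leaves_pos p2
      have hq1 := leaves_pos q1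
      have hq2 := leaves_pos q2
      rcases lt_trichotomy p1.numLeaves q1.numLeaves with hlt | heq | hgt
      · refine ⟨k, k + p1.numLeaves, k + (p1.numLeaves + p2.numLeaves) - 1, le_rfl, by omega,
          by omega, by omega, Or.inr fun F hF => ⟨?_, ?_⟩⟩
        · rw [f2, prod_two F q1 k k (k + p1.numLeaves) le_rfl (by omega) (by omega)
            (fun m h3 h4 h5 h6 => hF m h3 (by omega) h5 h6 (by omega)),
            prod_one F q2 _ (k + (p1.numLeaves + p2.numLeaves) - 1) (by omega) (by omega)
            (fun m h3 h4 h5 => hF m (by omega) (by omega) (by omega) (by omega) h5)]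
        · rw [f1, prod_one F p1 k k le_rfl (by omega)
            (fun m h3 h4 h5 => hF m h3 (by omega) h5 (by omega) (by omega)),
            prod_two F p2 _ (k + p1.numLeaves) (k + (p1.numLeaves + p2.numLeaves) - 1) le_rfl
            (by omega) (by omega)
            (fun m h3 h4 h5 h6 => hF m (by omega) (by omega) (by omega) h5 h6)]
      · by_cases hne : p1 = q1
        · subst hne
          have hne2 : p2 ≠ q2 := by rintro rfl; exact h2 (by cases a; cases b; rfl)
          obtain ⟨i, j, l, g1, g2, g3, g4, g5⟩ := ih2 q2 (k + p1.numLeaves) (by omega) hne2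
          refine ⟨i, j, l, by omega, g2, g3, by omega, ?_⟩
          rcases g5 with g5 | g5
          · left
            intro F hF
            obtain ⟨u, v⟩ := g5 F (fun m h3 h4 h5 h6 h7 => hF m (by omega) (by omega) h5 h6 h7)
            rw [f1, f2, prod_univ F p1 k (fun m h3 h4 => hF m h3 (by omega) (by omega) (by omega)
              (by omega)), univ_box, univ_box]
            exact ⟨u, v⟩
          · right
            intro F hF
            obtain ⟨u, v⟩ := g5 F (fun m h3 h4 h5 h6 h7 => hF m (by omega) (by omega) h5 h6 h7)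
            rw [f1, f2, prod_univ F p1 k (fun m h3 h4 => hF m h3 (by omega) (by omega) (by omega)
              (by omega)), univ_box, univ_box]
            exact ⟨u, v⟩
        · obtain ⟨i, j, l, g1, g2, g3, g4, g5⟩ := ih1 q1 k heq hne
          refine ⟨i, j, l, by omega, g2, g3, by omega, ?_⟩
          rcases g5 with g5 | g5
          · left
            intro F hF
            obtain ⟨u, v⟩ := g5 F (fun m h3 h4 h5 h6 h7 => hF m h3 (by omega) h5 h6 h7)
            rw [f1, f2, prod_univ F p2 _ (fun m h3 h4 => hF m (by omega) (by omega) (by omega)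
              (by omega) (by omega)), prod_univ F q2 _ (fun m h3 h4 => hF m (by omega) (by omega)
              (by omega) (by omega) (by omega)), box_univ, box_univ]
            exact ⟨u, v⟩
          · right
            intro F hF
            obtain ⟨u, v⟩ := g5 F (fun m h3 h4 h5 h6 h7 => hF m h3 (by omega) h5 h6 h7)
            rw [f1, f2, prod_univ F p2 _ (fun m h3 h4 => hF m (by omega) (by omega) (by omega)
              (by omega) (by omega)), prod_univ F q2 _ (fun m h3 h4 => hF m (by omega) (by omega)
              (by omega) (by omega) (by omega)), box_univ, box_univ]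
            exact ⟨u, v⟩
      · refine ⟨k, k + q1.numLeaves, k + (p1.numLeaves + p2.numLeaves) - 1, le_rfl, by omega,
          by omega, by omega, Or.inl fun F hF => ⟨?_, ?_⟩⟩
        · rw [f1, prod_two F p1 k k (k + q1.numLeaves) le_rfl (by omega) (by omega)
            (fun m h3 h4 h5 h6 => hF m h3 (by omega) h5 h6 (by omega)),
            prod_one F p2 _ (k + (p1.numLeaves + p2.numLeaves) - 1) (by omega) (by omega)
            (fun m h3 h4 h5 => hF m (by omega) (by omega) (by omega) (by omega) h5)]
        · rw [f2, prod_one F q1 k k le_rfl (by omega)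
            (fun m h3 h4 h5 => hF m h3 (by omega) h5 (by omega) (by omega)),
            prod_two F q2 _ (k + q1.numLeaves) (k + (p1.numLeaves + p2.numLeaves) - 1) le_rfl
            (by omega) (by omega)
            (fun m h3 h4 h5 h6 => hF m (by omega) (by omega) (by omega) h5 h6)]

/-! ### The example with three factors -/

/-- First factor. -/
def eA : Set (Fin 2 → Fin 3) := {x | x 1 = 0 ∨ x 0 = 2}
/-- Second factor. -/
def eB : Set (Fin 2 → Fin 3) := {x | ¬ (x 0 = 1 ∧ x 1 = 0)}
/-- Third factor. -/
def eC : Set (Fin 2 → Fin 3) := {x | x 1 = 0 ∨ x 0 = 0}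

theorem mem_box {A B : Set (Fin 2 → Fin 3)} {x : Fin 2 → Fin 3}
    (h : (cyl x {0} ⊆ A ∧ cyl x {1} ⊆ B) ∨ (cyl x {1} ⊆ A ∧ cyl x {0} ⊆ B)) : x ∈ box A B := by
  rcases h with ⟨h1, h2⟩ | ⟨h1, h2⟩
  · exact ⟨{0}, {1}, by decide, h1, h2⟩
  · exact ⟨{1}, {0}, by decide, h1, h2⟩

theorem mem_cyl {x y : Fin 2 → Fin 3} {i : Fin 2} (h : y ∈ cyl x {i}) : y i = x i :=
  h i (Finset.mem_singleton_self i)

theorem left_mem : (![2, 0] : Fin 2 → Fin 3) ∈ box (box eA eB) eC := by
  refine mem_box (Or.inl ⟨fun y hy => ?_, fun y hy => ?_⟩)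
  · have h0 : y 0 = 2 := mem_cyl hy
    by_cases h1 : y 1 = 0
    · refine mem_box (Or.inr ⟨fun z hz => ?_, fun z hz => ?_⟩)
      · exact Or.inl ((mem_cyl hz).trans h1)
      · have h2 : z 0 = 2 := (mem_cyl hz).trans h0
        show ¬ (z 0 = 1 ∧ z 1 = 0)
        rw [h2]; rintro ⟨h, -⟩; exact absurd h (by decide)
    · refine mem_box (Or.inl ⟨fun z hz => ?_, fun z hz => ?_⟩)
      · exact Or.inr ((mem_cyl hz).trans h0)
      · have h2 : z 1 = y 1 := mem_cyl hz
        show ¬ (z 0 = 1 ∧ z 1 = 0)
        rw [h2]; rintro ⟨-, h⟩; exact h1 h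
  · exact Or.inl (mem_cyl hy)

theorem right_mem : (![0, 0] : Fin 2 → Fin 3) ∈ box eA (box eB eC) := by
  refine mem_box (Or.inr ⟨fun y hy => ?_, fun y hy => ?_⟩)
  · exact Or.inl (mem_cyl hy)
  · have h0 : y 0 = 0 := mem_cyl hy
    by_cases h1 : y 1 = 0
    · refine mem_box (Or.inl ⟨fun z hz => ?_, fun z hz => ?_⟩)
      · have h2 : z 0 = 0 := (mem_cyl hz).trans h0
        show ¬ (z 0 = 1 ∧ z 1 = 0)
        rw [h2]; rintro ⟨h, -⟩; exact absurd h (by decide)
      · exact Or.inl ((mem_cyl hz).trans h1)
    · refine mem_box (Or.inr ⟨fun z hz => ?_, fun z hz => ?_⟩)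
      · have h2 : z 1 = y 1 := mem_cyl hz
        show ¬ (z 0 = 1 ∧ z 1 = 0)
        rw [h2]; rintro ⟨-, h⟩; exact h1 h
      · exact Or.inr ((mem_cyl hz).trans h0)

theorem box_sub_left {ι S : Type*} (A B : Set (ι → S)) : box A B ⊆ A := by
  rintro x ⟨K, L, -, h, -⟩; exact h (cyl_self x K)

theorem box_sub_right {ι S : Type*} (A B : Set (ι → S)) : box A B ⊆ B := by
  rintro x ⟨K, L, -, -, h⟩; exact h (cyl_self x L)

theorem left_notMem : (![2, 0] : Fin 2 → Fin 3) ∉ box eA (box eB eC) := by
  rintro ⟨K, L, hd, hK, hL⟩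
  have hy : ∀ (M : Finset (Fin 2)) (y : Fin 2 → Fin 3), (0 ∈ M → y 0 = 2) → (1 ∈ M → y 1 = 0) →
      y ∈ cyl ![2, 0] M := by
    intro M y h0 h1 i hi
    fin_cases i
    · exact h0 hi
    · exact h1 hi
  have l1 : (1 : Fin 2) ∈ L := by
    by_contra h
    have h2 := box_sub_right _ _ (hL (hy L ![2, 1] (fun _ => rfl) (fun h3 => absurd h3 h)))
    revert h2
    simp [eC]
  have l0 : (0 : Fin 2) ∈ L := by
    by_contra h
    have h2 := box_sub_left _ _ (hL (hy L ![1, 0] (fun h3 => absurd h3 h) (fun _ => rfl)))
    revert h2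
    simp [eB]
  have k1 : (1 : Fin 2) ∉ K := fun h => Finset.disjoint_left.1 hd h l1
  have k0 : (0 : Fin 2) ∉ K := fun h => Finset.disjoint_left.1 hd h l0
  have h2 := hK (hy K ![0, 1] (fun h3 => absurd h3 k0) (fun h3 => absurd h3 k1))
  revert h2
  simp [eA]

/-- The family of factors with three proper factors at `i`, `j`, `l`. -/
def fam (i j l m : ℕ) : Set (Fin 2 → Fin 3) :=
  if m = i then eA else if m = j then eB else if m = l then eC else Set.univ

theorem fam_univ {i j l m : ℕ} (h1 : m ≠ i) (h2 : m ≠ j) (h3 : m ≠ l) :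
    fam i j l m = Set.univ := by simp [fam, h1, h2, h3]

/-- For every `r ≥ 3` there are `d ≥ 1` and sets `A 1, ..., A r ⊆ {0,1,2}^d` such that different
bracketings (full binary trees with `r` leaves) of the word `A 1, ..., A r` give different sets; so
the number of different binary-associated products is the Catalan number `C_(r-1)`. -/
theorem result : ∀ r : ℕ, 3 ≤ r → ∃ (d : ℕ) (A : ℕ → Set (Fin d → Fin 3)), 1 ≤ d ∧
    (∀ p q : BinaryTree Unit, p.numLeaves = r → q.numLeaves = r → p ≠ q →
      prod A p 1 ≠ prod A q 1) ∧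
    {X : Set (Fin d → Fin 3) | ∃ t : BinaryTree Unit, t.numLeaves = r ∧ X = prod A t 1}.ncard =
      catalan (r - 1) := by
  classical
  intro r hr
  let T : Type := {t : Fin (r + 1) × Fin (r + 1) × Fin (r + 1) //
    1 ≤ (t.1 : ℕ) ∧ t.1 < t.2.1 ∧ t.2.1 < t.2.2}
  let G : T → ℕ → Set (Fin 2 → Fin 3) := fun t => fam t.1.1 t.1.2.1 t.1.2.2
  let e : Fin (Fintype.card (T × Fin 2)) ≃ T × Fin 2 := (Fintype.equivFin (T × Fin 2)).symm
  have t0 : T := ⟨(⟨1, by omega⟩, ⟨2, by omega⟩, ⟨3, by omega⟩), by simp⟩
  -- all the products are nonempty in every component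
  have hne : ∀ (p : BinaryTree Unit), p.numLeaves = r → ∀ t : T, (prod (G t) p 1).Nonempty := by
    rintro p hp ⟨⟨i, j, l⟩, h1, h2, h3⟩
    have hij : (i : ℕ) < j := h2
    have hjl : (j : ℕ) < l := h3
    simp only at h1
    have hl := l.2
    have h4 := prod_three (fam i j l) p 1 i j l h1 hij hjl (by omega)
      (fun m _ _ h5 h6 h7 => fam_univ h5 h6 h7)
    have ei : fam i j l i = eA := by simp [fam]
    have ej : fam i j l j = eB := by simp [fam, hij.ne']
    have el : fam i j l l = eC := by
      have : (l : ℕ) ≠ i := by omega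
      simp [fam, this, hjl.ne']
    rw [ei, ej, el] at h4
    show (prod (fam i j l) p 1).Nonempty
    rcases h4 with h4 | h4
    · rw [h4]; exact ⟨_, left_mem⟩
    · rw [h4]; exact ⟨_, right_mem⟩
  have hdist : ∀ p q : BinaryTree Unit, p.numLeaves = r → q.numLeaves = r → p ≠ q →
      prod (fun m => re e (pr (fun t => G t m))) p 1 ≠
        prod (fun m => re e (pr (fun t => G t m))) q 1 := by
    intro p q hp hq hpq heq
    rw [prod_re, prod_re, prod_pr, prod_pr] at heq
    obtain ⟨i, j, l, h1, h2, h3, h4, h5⟩ := separate p q 1 (by omega) hpq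
    have ei : fam i j l i = eA := by simp [fam]
    have ej : fam i j l j = eB := by simp [fam, h2.ne']
    have el : fam i j l l = eC := by
      have : l ≠ i := by omega
      simp [fam, this, h3.ne']
    let t : T := ⟨(⟨i, by omega⟩, ⟨j, by omega⟩, ⟨l, by omega⟩), h1, h2, h3⟩
    -- the two products differ in component `t`
    have hcomp : ∀ p' q' : BinaryTree Unit, p'.numLeaves = r →
        re e (pr (fun t => prod (G t) p' 1)) = re e (pr (fun t => prod (G t) q' 1)) →
        prod (G t) p' 1 ⊆ prod (G t) q' 1 := by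
      intro p' q' hp' heq' z hz
      choose w hw using hne p' hp'
      have hx : (fun s : T × Fin 2 => if s.1 = t then z s.2 else w s.1 s.2) ∘ e ∈
          re e (pr (fun t => prod (G t) p' 1)) := by
        show ((fun s : T × Fin 2 => if s.1 = t then z s.2 else w s.1 s.2) ∘ e) ∘ e.symm ∈
          pr (fun t => prod (G t) p' 1)
        rw [Function.comp_assoc, e.self_comp_symm, Function.comp_id]
        intro s
        by_cases hs : s = t
        · subst hs; simpa using hz
        · simpa [hs] using hw s
      rw [heq'] at hx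
      have hx' : ((fun s : T × Fin 2 => if s.1 = t then z s.2 else w s.1 s.2) ∘ e) ∘ e.symm ∈
        pr (fun t => prod (G t) q' 1) := hx
      rw [Function.comp_assoc, e.self_comp_symm, Function.comp_id] at hx'
      have := hx' t
      simpa using this
    have hfin : prod (G t) p 1 = prod (G t) q 1 :=
      Set.Subset.antisymm (hcomp p q hp heq) (hcomp q p hq heq.symm)
    have hGt : G t = fam i j l := rfl
    rw [hGt] at hfin
    rcases h5 with h5 | h5
    · obtain ⟨u, v⟩ := h5 (fam i j l) (fun m _ _ h6 h7 h8 => fam_univ h6 h7 h8)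
      rw [ei, ej, el] at u v
      rw [u, v] at hfin
      exact left_notMem (hfin ▸ left_mem)
    · obtain ⟨u, v⟩ := h5 (fam i j l) (fun m _ _ h6 h7 h8 => fam_univ h6 h7 h8)
      rw [ei, ej, el] at u v
      rw [u, v] at hfin
      exact left_notMem (hfin ▸ left_mem)
  refine ⟨_, fun m => re e (pr (fun t => G t m)), ?_, hdist, ?_⟩
  · exact Fintype.card_pos_iff.2 ⟨(t0, 0)⟩
  · have hset : {X : Set (Fin (Fintype.card (T × Fin 2)) → Fin 3) | ∃ t : BinaryTree Unit,
        t.numLeaves = r ∧ X = prod (fun m => re e (pr (fun t => G t m))) t 1} =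
        (fun t => prod (fun m => re e (pr (fun t => G t m))) t 1) ''
          (BinaryTree.treesOfNumNodesEq (r - 1) : Set (BinaryTree Unit)) := by
      ext X
      simp only [Set.mem_ofPred_eq, Set.mem_image, Finset.mem_coe, BinaryTree.mem_treesOfNumNodesEq]
      constructor
      · rintro ⟨t, h1, h2⟩
        refine ⟨t, ?_, h2.symm⟩
        rw [BinaryTree.numLeaves_eq_numNodes_succ] at h1; omega
      · rintro ⟨t, h1, h2⟩
        refine ⟨t, ?_, h2.symm⟩
        rw [BinaryTree.numLeaves_eq_numNodes_succ]; omega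
    rw [hset, Set.InjOn.ncard_image, Set.ncard_coe_finset,
      BinaryTree.treesOfNumNodesEq_card_eq_catalan]
    intro p hp q hq hpq
    by_contra hne'
    rw [Finset.mem_coe, BinaryTree.mem_treesOfNumNodesEq] at hp hq
    exact hdist p q (by rw [BinaryTree.numLeaves_eq_numNodes_succ]; omega)
      (by rw [BinaryTree.numLeaves_eq_numNodes_succ]; omega) hne' hpq

end Pool.Agent.Results.MP_890654_pr.AllDistinct
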